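import Mathlib
import Pool.Agent.H.MP_59b15d_al.h77h.Ax
import Pool.Agent.H.MP_59b15d_al.h19s.Hopf

set_option autoImplicit false

namespace Pool.MP_59b15d_al.SymH

open Pool.MP_59b15d_al.Sym (Gg cW)
open Fin.NatCast Fin.CommRing

variable {ν N : ℕ}

/-- The product of the commutators. -/
def cH (ν N : ℕ) : FG ν N := (List.ofFn fun i : Fin ν =>
      FreeGroup.of (Sum.inl (Sum.inl i) : (Fin ν ⊕ Fin ν) ⊕ Fin N) *
      FreeGroup.of (Sum.inl (Sum.inr i) : (Fin ν ⊕ Fin ν) ⊕ Fin N) *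
      (FreeGroup.of (Sum.inl (Sum.inl i) : (Fin ν ⊕ Fin ν) ⊕ Fin N))⁻¹ *
      (FreeGroup.of (Sum.inl (Sum.inr i) : (Fin ν ⊕ Fin ν) ⊕ Fin N))⁻¹).prod

theorem cW_rr : cW ν N = cH ν N * (List.ofFn fun j : Fin N => (xg j : FG ν N)).prod := rfl

theorem prod_per : cH ν N * (List.ofFn (per : Fin (N + 1) → FG ν N)).prod = 1 := by
  rw [List.ofFn_succ', List.concat_eq_append, List.prod_append, List.prod_singleton, per_last, xn,
    cW_rr, ← mul_assoc]
  simp only [per_castSucc]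
  rw [mul_inv_cancel]

/-- The rotation. -/
def rotH (ν N : ℕ) : FG ν N →* FG ν N := FreeGroup.lift (Sum.elim
  (fun x => FreeGroup.of (Sum.inl x)) fun j : Fin N => per j.succ)

theorem rotH_inl (x : Fin ν ⊕ Fin ν) : rotH ν N (FreeGroup.of (Sum.inl x)) =
    FreeGroup.of (Sum.inl x) := by
  rw [rotH, FreeGroup.lift_apply_of]
  rfl

theorem rotH_xg (j : Fin N) : rotH ν N (xg j) = per j.succ := by
  rw [rotH, FreeGroup.lift_apply_of]
  rfl

theorem rotH_cH : rotH ν N (cH ν N) = cH ν N := by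
  rw [cH, map_list_prod, List.map_ofFn]
  congr 2

theorem rotH_xn : rotH ν N (xn ν N) = cH ν N * per 0 * (cH ν N)⁻¹ := by
  rw [xn, cW_rr, map_inv, map_mul, rotH_cH, map_list_prod, List.map_ofFn]
  have h1 : (⇑(rotH ν N) ∘ fun j : Fin N => (xg j : FG ν N)) = fun j : Fin N => per j.succ := by
    funext j
    exact rotH_xg j
  rw [h1]
  have h2 := prod_per (ν := ν) (N := N)
  rw [List.ofFn_succ, List.prod_cons] at h2
  have h3 : (List.ofFn fun j : Fin N => (per j.succ : FG ν N)).prod = (per 0)⁻¹ * (cH ν N)⁻¹ := by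
    rw [← mul_inv_rev, eq_inv_iff_mul_eq_one]
    have h4 := congrArg (fun z => (cH ν N * per 0)⁻¹ * z * (cH ν N * per 0)) h2
    simp only [mul_one, inv_mul_cancel] at h4
    rw [← h4]
    group
  rw [h3]
  group

theorem rotH_per (j : Fin (N + 1)) : ∃ w, rotH ν N (per j) = w * per (j + 1) * w⁻¹ := by
  refine Fin.lastCases ?_ (fun i => ?_) j
  · rw [Fin.last_add_one, per_last]
    exact ⟨cH ν N, rotH_xn⟩
  · rw [Fin.coeSucc_eq_succ, per_castSucc]
    exact ⟨1, by rw [rotH_xg]; group⟩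

theorem rotH_surj : Function.Surjective (rotH ν N) := by
  rw [← MonoidHom.range_eq_top]
  set R := (rotH ν N).range with hR
  have h1 : ∀ x : Fin ν ⊕ Fin ν, FreeGroup.of (Sum.inl x) ∈ R := fun x => ⟨_, rotH_inl x⟩
  have h2 : cH ν N ∈ R := ⟨_, rotH_cH⟩
  have h3 : ∀ j : Fin N, (per j.succ : FG ν N) ∈ R := fun j => ⟨_, rotH_xg j⟩
  have h4 : (per 0 : FG ν N) ∈ R := by
    have h5 : cH ν N * per 0 * (cH ν N)⁻¹ ∈ R := ⟨_, rotH_xn⟩
    have h6 := R.mul_mem (R.mul_mem (R.inv_mem h2) h5) h2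
    have h7 : (cH ν N)⁻¹ * (cH ν N * per 0 * (cH ν N)⁻¹) * cH ν N = per 0 := by group
    rwa [h7] at h6
  have h5 : ∀ j : Fin (N + 1), (per j : FG ν N) ∈ R := fun j => by
    rcases Fin.eq_zero_or_eq_succ j with rfl | ⟨i, rfl⟩
    · exact h4
    · exact h3 i
  rw [eq_top_iff, ← FreeGroup.closure_range_of, Subgroup.closure_le]
  rintro _ ⟨x, rfl⟩
  rcases x with x | j
  · exact h1 x
  · have h6 := h5 j.castSucc
    rwa [per_castSucc] at h6

/-- The rotation. -/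
noncomputable def rotA (ν N : ℕ) : MulAut (FG ν N) := MulEquiv.ofBijective (rotH ν N)
  ⟨Pool.MP_59b15d_al.H19S.hopf rfl (rotH ν N) rotH_surj, rotH_surj⟩

theorem exists_rotc (c : Fin (N + 1)) : ∃ σ : MulAut (FG ν N), ∀ j, ∃ w,
    σ (per j) = w * per (j + c) * w⁻¹ := by
  have key : ∀ (k : ℕ) (j : Fin (N + 1)), ∃ w, (rotA ν N ^ k) (per j) =
      w * per (j + (k : Fin (N + 1))) * w⁻¹ := by
    intro k
    induction k with
    | zero => exact fun j => ⟨1, by simp⟩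
    | succ k ih =>
      intro j
      obtain ⟨w, hw⟩ := rotH_per (ν := ν) j
      obtain ⟨v, hv⟩ := ih (j + 1)
      refine ⟨(rotA ν N ^ k) w * v, ?_⟩
      rw [pow_succ, MulAut.mul_apply]
      change (rotA ν N ^ k) (rotH ν N (per j)) = _
      have h5 : j + ((k + 1 : ℕ) : Fin (N + 1)) = j + 1 + (k : Fin (N + 1)) := by
        push_cast
        ring
      rw [hw, map_mul, map_mul, map_inv, hv, h5]
      group
  refine ⟨rotA ν N ^ (c : ℕ), fun j => ?_⟩
  have h6 := key (c : ℕ) j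
  rwa [Fin.cast_val_eq_self] at h6

end Pool.MP_59b15d_al.SymH
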