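import Mathlib
import Pool.Agent.H.MP_59b15d_al.symh.Cent
import Pool.Agent.H.MP_59b15d_al.h77h.Mg
import Pool.Agent.H.MP_59b15d_al.h76r.Sd

set_option autoImplicit false

namespace Pool.MP_59b15d_al.SymH

open Pool.MP_59b15d_al.Sym (Gg cW glue)

variable {ν N : ℕ} {e : Fin N → ℕ} {m : ℕ}

theorem Lev.mono {D U : Subgroup (FG ν N)} {T T' : Set (FG ν N)} (hU : Lev e m D T U) (h : T' ⊆ T) :
    Lev e m D T' U :=
  ⟨hU.le, hU.nor, hU.fin, hU.rel, fun x hx => hU.kil x (h hx)⟩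

/-- `CLAIM(k)`. -/
def Claim (e : Fin N → ℕ) (m : ℕ) (D : Subgroup (FG ν N)) (r : ℕ) (g : Fin (r + 1) → FG ν N)
    (k : ℕ) : Prop :=
  ∀ U : Subgroup (FG ν N), Lev e m D {h | ∀ i : Fin (r + 1), (i : ℕ) < k → (g i)⁻¹ * h ∉ D} U →
    ∃ Γ : Subgroup (FG ν N), Γ.Normal ∧ Γ.FiniteIndex ∧ (∀ j, xg j ^ e j ∈ Γ) ∧
      xn ν N ^ m ∈ Γ ∧ ∀ f ∈ CP ν N, f (xn ν N) = xn ν N → (∀ z, f z * z⁻¹ ∈ Γ) →
        ∃ a : ℤ, InnOn U D f (xn ν N ^ a)

theorem claim_one (hN : 1 ≤ ν ∨ 4 ≤ N) (he : ∀ j, 2 ≤ e j) (hm : 2 ≤ m) {K D : Subgroup (FG ν N)}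
    (hC : CK e m K) (hD : IsD K D) (r : ℕ) (g : Fin (r + 1) → FG ν N) (hg0 : g 0 = 1)
    (hg : ∀ z, ∃ i, (g i)⁻¹ * z ∈ D) (hgg : ∀ i j, i ≠ j → (g i)⁻¹ * g j ∉ D) :
    Claim e m D r g 1 := by
  intro U hU
  obtain ⟨Γ₁, hL, hK, hf⟩ := mg hN he hm hC hD 1 r (fun i => g i.succ)
    (fun z => by
      obtain ⟨i, hi⟩ := hg z
      rcases Fin.eq_zero_or_eq_succ i with rfl | ⟨i, rfl⟩
      · left
        rwa [hg0] at hi
      · exact Or.inr ⟨i, hi⟩)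
    (fun i => by
      rw [← hg0]
      exact hgg 0 i.succ (Fin.succ_ne_zero i).symm)
    (fun i j hij => hgg j.succ i.succ fun h => hij (Fin.succ_injective _ h).symm)
    (fun _ => False) U (hU.mono fun h hh i hi => by
      have : i = 0 := Fin.ext (by simpa using hi)
      rw [this, hg0]
      exact hh.1)
  have hL' : ∀ h : FG ν N, h * xn ν N ^ m * h⁻¹ ∈ Γ₁ := fun h => hL.kil h fun i hi => hi.elim
  have hLf := hL.fin
  refine ⟨Γ₁.normalCore, inferInstance, inferInstance, fun j h => hL.rel j h, fun h => hL' h, ?_⟩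
  intro f hf1 hf2 hf3
  have hle := Γ₁.normalCore_le
  have hfD : ∀ z, f z * z⁻¹ ∈ D := fun z => hD.le (hK (hle (hf3 z)))
  obtain ⟨b, hb⟩ := hf f hf1 (fun z => by
      have h1 := hK (hle (hf3 z))
      constructor
      · intro h2
        have h3 := K.mul_mem (K.inv_mem h1) h2
        simpa using h3
      · intro h2
        have h3 := K.mul_mem h1 h2
        simpa using h3) (by simpa using hf2) (fun i hi => hi.elim) (fun i => by
      refine ⟨f (g i.succ) * (g i.succ)⁻¹, hfD _, ?_⟩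
      rw [map_mul, map_mul, map_inv, hf2]
      group) (fun z _ => hle (hf3 z))
  refine ⟨b, ?_⟩
  simpa using hb

theorem Lev.iInf {ι : Type*} [Finite ι] [Nonempty ι] {D : Subgroup (FG ν N)} {T : Set (FG ν N)}
    {U : ι → Subgroup (FG ν N)} (h : ∀ i, Lev e m D T (U i)) : Lev e m D T (⨅ i, U i) := by
  obtain ⟨i₀⟩ := (inferInstance : Nonempty ι)
  refine ⟨(iInf_le U i₀).trans (h i₀).le, fun d hd u hu => ?_, ?_, fun j x => ?_, fun x hx => ?_⟩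
  · rw [Subgroup.mem_iInf] at hu ⊢
    exact fun i => (h i).nor d hd u (hu i)
  · have := fun i => (h i).fin
    exact Subgroup.finiteIndex_iInf fun i => this i
  · rw [Subgroup.mem_iInf]
    exact fun i => (h i).rel j x
  · rw [Subgroup.mem_iInf]
    exact fun i => (h i).kil x hx

theorem claim_succ (hN : 1 ≤ ν ∨ 4 ≤ N) (he : ∀ j, 2 ≤ e j) (hm : 2 ≤ m) {K D : Subgroup (FG ν N)}
    (hC : CK e m K) (hD : IsD K D) (r : ℕ) (g : Fin (r + 1) → FG ν N)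
    (hg : ∀ z, ∃ i, (g i)⁻¹ * z ∈ D) (hgg : ∀ i j, i ≠ j → (g i)⁻¹ * g j ∉ D)
    (k : ℕ) (hk : k < r + 1) (hcl : Claim e m D r g k) : Claim e m D r g (k + 1) := by
  intro U hU
  have hDn := hD.nor hC
  have hDf := hD.fin hC
  have hKn := hC.nor
  have hKf := hC.fin
  set κ : Fin (r + 1) := ⟨k, hk⟩ with hκ
  obtain ⟨Ua, hUa, hUaU, hUac⟩ := cent hN e he m hm D hDn hDf hD.xn _ U hU 1
  obtain ⟨Γ₁, hΓ₁, hΓ₁K, hΓ₁f⟩ := mg hN he hm hC hD (g κ) r (fun i => g (κ.succAbove i))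
    (fun z => by
      obtain ⟨i, hi⟩ := hg z
      rcases Fin.eq_self_or_eq_succAbove κ i with h | ⟨i, h⟩
      · left
        rwa [h] at hi
      · right
        exact ⟨i, by rwa [h] at hi⟩)
    (fun i => hgg κ _ (Fin.succAbove_ne κ i).symm)
    (fun i j hij => hgg _ _ fun h => hij (Fin.succAbove_right_injective h).symm)
    (fun i => ((κ.succAbove i : Fin (r + 1)) : ℕ) < k) Ua (hUa.mono fun h hh i hi => by
      rcases Fin.eq_self_or_eq_succAbove κ i with h' | ⟨i', h'⟩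
      · rw [h']
        exact hh.1
      · rw [h']
        refine hh.2 i' ?_
        rw [← h']
        have h3 : (i : ℕ) ≠ k := by
          intro h4
          refine Fin.succAbove_ne κ i' ?_
          rw [← h']
          exact Fin.ext h4
        omega)
  have hΓ₁' : Lev e m D {h | ∀ i : Fin (r + 1), (i : ℕ) < k → (g i)⁻¹ * h ∉ D} Γ₁ :=
    hΓ₁.mono fun h hh i hi => hh _ hi
  have hcent := fun i : Fin (r + 1) => cent hN e he m hm D hDn hDf hD.xn _ Γ₁ hΓ₁' (g i)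
  choose Ub' hUb' hUb'Γ hUb'c using hcent
  have hUb := Lev.iInf hUb'
  set Ub := ⨅ i, Ub' i with hUbd
  have hUbΓ : Ub ≤ Γ₁ := (iInf_le Ub' 0).trans (hUb'Γ 0)
  obtain ⟨Uc, hUc, hUcb, hUcc⟩ := cent hN e he m hm D hDn hDf hD.xn _ Ub hUb (g κ)
  obtain ⟨Γ, hΓn, hΓf, hΓ1, hΓ2, hΓ⟩ := hcl Uc hUc
  refine ⟨Γ ⊓ K, inferInstance, inferInstance, fun j => ⟨hΓ1 j, hC.h1 j⟩, ⟨hΓ2, hC.h2⟩, ?_⟩
  intro f hf hfx hfz
  obtain ⟨a, ha⟩ := hΓ f hf hfx fun z => (hfz z).1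
  have hfK : ∀ z, f z * z⁻¹ ∈ K := fun z => (hfz z).2
  set C := g κ * xn ν N * (g κ)⁻¹ with hCd
  have hCD : C ∈ D := hD.conj hC (g κ)
  set w := g κ * (f (g κ))⁻¹ with hw
  have hwD : w ∈ D := by
    have h1 := hD.le (K.inv_mem (hfK (g κ)))
    have h2 : (f (g κ) * (g κ)⁻¹)⁻¹ = w := by rw [hw]; group
    rwa [h2] at h1
  have hxD : xn ν N ^ a ∈ D := D.zpow_mem hD.xn a
  have hfC : f C = w⁻¹ * C * w := by
    rw [hCd, hw, map_mul, map_mul, map_inv, hfx]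
    group
  have h1 := ha C hCD
  rw [hfC] at h1
  obtain ⟨j, hj⟩ := hUcc (w * xn ν N ^ a) (D.mul_mem hwD hxD) (by
    have h2 := Uc.inv_mem (hUc.nor w hwD _ h1)
    have h3 : (w * (w⁻¹ * C * w * (xn ν N ^ a * C * (xn ν N ^ a)⁻¹)⁻¹) * w⁻¹)⁻¹ =
        w * xn ν N ^ a * C * (w * xn ν N ^ a)⁻¹ * C⁻¹ := by group
    rwa [h3] at h2)
  -- `f'' = conj s ∘ f`
  set s := C ^ (-j) * w with hs
  have hsD : s ∈ D := D.mul_mem (D.zpow_mem hCD _) hwD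
  have ht : s * xn ν N ^ a ∈ Ub := by
    have h2 : (C ^ j)⁻¹ * (w * xn ν N ^ a) = s * xn ν N ^ a := by
      rw [hs]
      group
    rwa [h2] at hj
  set f'' : MulAut (FG ν N) := MulAut.conj s * f with hf''
  have hf''z : ∀ z, f'' z = s * f z * s⁻¹ := fun z => rfl
  have hf''C : f'' C = C := by
    rw [hf''z, hfC, hs]
    group
  have hf''b : ∀ z ∈ D, f'' z * z⁻¹ ∈ Ub := by
    intro y hy
    have h2 := hUb.nor s hsD _ (hUcb (ha y hy))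
    have h3 := Ub.mul_mem ht (hUb.nor y hy _ (Ub.inv_mem ht))
    have h4 := Ub.mul_mem h2 h3
    have h5 : s * (f y * (xn ν N ^ a * y * (xn ν N ^ a)⁻¹)⁻¹) * s⁻¹ *
        (s * xn ν N ^ a * (y * (s * xn ν N ^ a)⁻¹ * y⁻¹)) = s * f y * s⁻¹ * y⁻¹ := by group
    rw [h5] at h4
    exact h4
  have hvi : ∀ i, ∃ v ∈ D, f'' (g i * xn ν N * (g i)⁻¹) = v * (g i * xn ν N * (g i)⁻¹) * v⁻¹ := by
    intro i
    refine ⟨s * (f (g i) * (g i)⁻¹), D.mul_mem hsD (hD.le (hfK _)), ?_⟩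
    rw [hf''z, map_mul, map_mul, map_inv, hfx]
    group
  obtain ⟨b, hb⟩ := hΓ₁f f'' ((CP ν N).mul_mem (conj_mem_CP s) hf) (fun z => by
      rw [hf''z]
      have h1 := hfK z
      constructor
      · intro h2
        have h3 := hKn.conj_mem _ h2 s⁻¹
        have h4 : s⁻¹ * (s * f z * s⁻¹) * s⁻¹⁻¹ = f z := by group
        rw [h4] at h3
        have h3 := K.mul_mem (K.inv_mem h1) h3
        simpa using h3
      · intro h2
        have h3 := K.mul_mem h1 h2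
        refine hKn.conj_mem _ ?_ s
        simpa using h3) hf''C (fun i _ => by
      obtain ⟨v, hvD, hv⟩ := hvi (κ.succAbove i)
      set Ci := g (κ.succAbove i) * xn ν N * (g (κ.succAbove i))⁻¹ with hCi
      have hCiD : Ci ∈ D := hD.conj hC _
      have h2 := (iInf_le Ub' (κ.succAbove i)) (hf''b Ci hCiD)
      rw [hv] at h2
      obtain ⟨a', ha'⟩ := hUb'c (κ.succAbove i) v hvD h2
      refine ⟨v * Ci ^ (-a'), ?_, ?_⟩
      · have h3 := hΓ₁.nor (Ci ^ a') (D.zpow_mem hCiD _) _ ha'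
        have h4 : Ci ^ a' * ((Ci ^ a')⁻¹ * v) * (Ci ^ a')⁻¹ = v * Ci ^ (-a') := by group
        rwa [h4] at h3
      · rw [hv]
        group) (fun i => hvi _) (fun z hz => hUbΓ (hf''b z hz))
  -- conclusion
  set v := w⁻¹ * C ^ (j + b) with hv
  have hvD : v ∈ D := D.mul_mem (D.inv_mem hwD) (D.zpow_mem hCD _)
  have hfv : InnOn Ua D f v := by
    intro y hy
    have h2 := hUa.nor s⁻¹ (D.inv_mem hsD) _ (hb y hy)
    have h3 : s⁻¹ * (f'' y * (C ^ b * y * (C ^ b)⁻¹)⁻¹) * s⁻¹⁻¹ = f y * (v * y * v⁻¹)⁻¹ := by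
      rw [hf''z, hs, hv]
      group
    rwa [h3] at h2
  have h2 := hfv (xn ν N) hD.xn
  rw [hfx] at h2
  obtain ⟨a', ha'⟩ := hUac v hvD (by
    have h3 := Ua.inv_mem h2
    have h4 : (xn ν N * (v * xn ν N * v⁻¹)⁻¹)⁻¹ = v * (1 * xn ν N * 1⁻¹) * v⁻¹ * (1 * xn ν N * 1⁻¹)⁻¹ := by
      group
    rwa [h4] at h3)
  refine ⟨a', fun y hy => ?_⟩
  have h5 : (1 * xn ν N * 1⁻¹ : FG ν N) = xn ν N := by group
  rw [h5] at ha'
  have h6 : (xn ν N ^ a' : FG ν N) ∈ D := D.zpow_mem hD.xn a'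
  have h7 := hUaU (hfv y hy)
  -- `v = x_n ^ a' * u`
  set u := (xn ν N ^ a')⁻¹ * v with hu
  have h8 := hU.nor _ h6 _ (U.mul_mem ha' (hU.nor y hy _ (U.inv_mem ha')))
  have h9 := U.mul_mem h7 h8
  have h10 : f y * (v * y * v⁻¹)⁻¹ * (xn ν N ^ a' * (u * (y * u⁻¹ * y⁻¹)) * (xn ν N ^ a')⁻¹) =
      f y * (xn ν N ^ a' * y * (xn ν N ^ a')⁻¹)⁻¹ := by
    rw [hu]
    group
  rwa [h10] at h9

end Pool.MP_59b15d_al.SymH
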